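import Mathlib

namespace Pool.Agent.H.MP_fa571f_co

/-- morphism on the letters 0,1,2,3,4 -/
def phi : ℕ → List ℕ
  | 0 => [0, 1]
  | 1 => [2, 3]
  | 2 => [4]
  | 3 => [2, 1]
  | _ => [0]

/-- iterates of `phi` on the letter 0 -/
def L : ℕ → List ℕ
  | 0 => [0]
  | n + 1 => (L n).flatMap phi

/-- coding of the fixed point -/
def psi : ℕ → List ℕ
  | 0 => [0, 2, 1, 2]
  | 1 => [0, 1, 2, 1]
  | 2 => [0, 2]
  | 3 => [0, 1, 2]
  | _ => [0, 2, 1]

lemma phi_len (a : ℕ) : 1 ≤ (phi a).length := by
  unfold phi; split <;> simp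

lemma psi_len (a : ℕ) : 1 ≤ (psi a).length := by
  unfold psi; split <;> simp

lemma prefix_flatMap {m : ℕ → List ℕ} {a b : List ℕ} (h : a <+: b) :
    a.flatMap m <+: b.flatMap m := by
  obtain ⟨c, rfl⟩ := h
  simp [List.flatMap_append]

lemma L_prefix (n : ℕ) : L n <+: L (n + 1) := by
  induction n with
  | zero => simp [L, phi]
  | succ n ih => exact prefix_flatMap ih

lemma L_prefix_le {m n : ℕ} (h : m ≤ n) : L m <+: L n := by
  induction h with
  | refl => exact List.prefix_refl _
  | step _ ih => exact ih.trans (L_prefix _)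

lemma flatMap_len (m : ℕ → List ℕ) (hm : ∀ a, 1 ≤ (m a).length) (l : List ℕ) :
    l.length ≤ (l.flatMap m).length := by
  induction l with
  | nil => simp
  | cons a l ih => simp only [List.flatMap_cons, List.length_append, List.length_cons]; have := hm a; omega

lemma L_head (n : ℕ) : ∃ t, L n = 0 :: t := by
  induction n with
  | zero => exact ⟨[], rfl⟩
  | succ n ih =>
    obtain ⟨t, ht⟩ := ih
    refine ⟨1 :: t.flatMap phi, ?_⟩
    simp [L, ht, phi]

lemma L_len (n : ℕ) : n < (L n).length := by
  induction n with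
  | zero => simp [L]
  | succ n ih =>
    obtain ⟨t, ht⟩ := L_head n
    have h1 : (L (n+1)).length = 2 + (t.flatMap phi).length := by
      simp [L, ht, phi]; omega
    have h2 := flatMap_len phi phi_len t
    have h3 : (L n).length = t.length + 1 := by simp [ht]
    omega

/-- the fixed point -/
def v (i : ℕ) : ℕ := (L i).getD i 0

lemma v_eq {i n : ℕ} (h : i < (L n).length) : (L n)[i]? = some (v i) := by
  have hi := L_len i
  rcases le_total i n with h' | h'
  · obtain ⟨t, ht⟩ := L_prefix_le h'
    rw [← ht, List.getElem?_append_left hi]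
    simp [v, List.getD_eq_getElem?_getD, List.getElem?_eq_getElem hi]
  · obtain ⟨t, ht⟩ := L_prefix_le h'
    unfold v
    rw [← ht, List.getD_eq_getElem?_getD, List.getElem?_append_left h]
    simp [List.getElem?_eq_getElem h]

/-- starting position of the `j`-th block for a morphism `m` -/
def S (m : ℕ → List ℕ) : ℕ → ℕ
  | 0 => 0
  | j + 1 => S m j + (m (v j)).length

lemma take_flatMap_len (m : ℕ → List ℕ) (n j : ℕ) (h : j ≤ (L n).length) :
    (((L n).take j).flatMap m).length = S m j := by
  induction j with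
  | zero => simp [S]
  | succ j ih =>
    have hj : j < (L n).length := h
    have h1 : (L n).take (j+1) = (L n).take j ++ [(L n)[j]] := by
      simp
    have h2 : (L n)[j] = v j := by
      have := v_eq hj
      rw [List.getElem?_eq_getElem hj] at this
      exact Option.some.inj this
    rw [h1, List.flatMap_append, List.length_append, ih (le_of_lt hj), h2]
    simp [S]

/-- position `S m j + t` of the image under `m` -/
lemma flatMap_get (m : ℕ → List ℕ) (n j t : ℕ) (h : j < (L n).length) (ht : t < (m (v j)).length) :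
    ((L n).flatMap m)[S m j + t]? = (m (v j))[t]? := by
  have h2 : (L n)[j] = v j := by
    have := v_eq h
    rw [List.getElem?_eq_getElem h] at this
    exact Option.some.inj this
  have h1 : L n = (L n).take j ++ (v j :: (L n).drop (j+1)) := by
    conv_lhs => rw [← List.take_append_drop j (L n)]
    rw [List.drop_eq_getElem_cons h, h2]
  have h3 := take_flatMap_len m n j (le_of_lt h)
  conv_lhs => rw [h1]
  rw [List.flatMap_append, List.getElem?_append_right (by omega), h3, Nat.add_sub_cancel_left,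
    List.flatMap_cons, List.getElem?_append_left ht]

lemma v_phi (j t : ℕ) (ht : t < (phi (v j)).length) : (phi (v j))[t]? = some (v (S phi j + t)) := by
  have hj : j < (L (S phi j + t + j)).length := lt_of_le_of_lt (by omega) (L_len _)
  have h := flatMap_get phi (S phi j + t + j) j t hj ht
  have h2 : S phi j + t < (L (S phi j + t + j + 1)).length := lt_of_le_of_lt (by omega) (L_len _)
  have h3 := v_eq h2
  rw [← h, ← h3]
  rfl

/-- the ternary word -/
def w (i : ℕ) : ℕ := ((L i).flatMap psi).getD i 0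

lemma w_eq {i n : ℕ} (h : i < ((L n).flatMap psi).length) : ((L n).flatMap psi)[i]? = some (w i) := by
  have hi : i < ((L i).flatMap psi).length := lt_of_lt_of_le (L_len i) (flatMap_len psi psi_len _)
  rcases le_total i n with h' | h'
  · obtain ⟨t, ht⟩ := prefix_flatMap (m := psi) (L_prefix_le h')
    rw [← ht, List.getElem?_append_left hi]
    simp [w, List.getD_eq_getElem?_getD, List.getElem?_eq_getElem hi]
  · obtain ⟨t, ht⟩ := prefix_flatMap (m := psi) (L_prefix_le h')
    unfold w
    rw [← ht, List.getD_eq_getElem?_getD, List.getElem?_append_left h]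
    simp [List.getElem?_eq_getElem h]

lemma w_psi (j t : ℕ) (ht : t < (psi (v j)).length) : (psi (v j))[t]? = some (w (S psi j + t)) := by
  have hj : j < (L (S psi j + t + j)).length := lt_of_le_of_lt (by omega) (L_len _)
  have h := flatMap_get psi (S psi j + t + j) j t hj ht
  have h2 : S psi j + t < ((L (S psi j + t + j)).flatMap psi).length :=
    lt_of_lt_of_le (lt_of_le_of_lt (by omega) (L_len _)) (flatMap_len psi psi_len _)
  have h3 := w_eq h2
  rw [← h, ← h3]


abbrev s : ℕ → ℕ := S phi

lemma phi_le (a b : ℕ) (h : b ∈ phi a) : b ≤ 4 := by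
  unfold phi at h; split at h <;> simp at h <;> omega

lemma L_le (n : ℕ) : ∀ b ∈ L n, b ≤ 4 := by
  cases n with
  | zero => simp [L]
  | succ n =>
    intro b hb
    simp only [L, List.mem_flatMap] at hb
    obtain ⟨a, -, h⟩ := hb
    exact phi_le a b h

lemma v_le (i : ℕ) : v i ≤ 4 := by
  have h := v_eq (L_len i)
  exact L_le i _ (List.mem_of_getElem? h)

lemma v_zero : v 0 = 0 := rfl

/-- description of the blocks -/
lemma blk (j : ℕ) :
    (v j = 0 ∧ v (s j) = 0 ∧ v (s j + 1) = 1 ∧ s (j+1) = s j + 2) ∨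
    (v j = 1 ∧ v (s j) = 2 ∧ v (s j + 1) = 3 ∧ s (j+1) = s j + 2) ∨
    (v j = 2 ∧ v (s j) = 4 ∧ s (j+1) = s j + 1) ∨
    (v j = 3 ∧ v (s j) = 2 ∧ v (s j + 1) = 1 ∧ s (j+1) = s j + 2) ∨
    (v j = 4 ∧ v (s j) = 0 ∧ s (j+1) = s j + 1) := by
  have h := v_le j
  have key := v_phi j
  have hs : s (j+1) = s j + (phi (v j)).length := rfl
  have h5 : v j = 0 ∨ v j = 1 ∨ v j = 2 ∨ v j = 3 ∨ v j = 4 := by omega
  rcases h5 with h0 | h0 | h0 | h0 | h0 <;> rw [h0] at key hs
  · have k0 := key 0 (by simp [phi])
    have k1 := key 1 (by simp [phi])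
    simp [phi] at k0 k1 hs; left; exact ⟨h0, k0.symm, k1.symm, hs⟩
  · have k0 := key 0 (by simp [phi])
    have k1 := key 1 (by simp [phi])
    simp [phi] at k0 k1 hs; right; left; exact ⟨h0, k0.symm, k1.symm, hs⟩
  · have k0 := key 0 (by simp [phi])
    simp [phi] at k0 hs; right; right; left; exact ⟨h0, k0.symm, hs⟩
  · have k0 := key 0 (by simp [phi])
    have k1 := key 1 (by simp [phi])
    simp [phi] at k0 k1 hs; right; right; right; left; exact ⟨h0, k0.symm, k1.symm, hs⟩
  · have k0 := key 0 (by simp [phi])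
    simp [phi] at k0 hs; right; right; right; right; exact ⟨h0, k0.symm, hs⟩

lemma s_zero : s 0 = 0 := rfl

lemma s_succ (j : ℕ) : s j + 1 ≤ s (j+1) ∧ s (j+1) ≤ s j + 2 := by
  have := blk j; omega

lemma s_add (j a : ℕ) : s j + a ≤ s (j + a) := by
  induction a with
  | zero => simp
  | succ a ih =>
    have h1 := s_succ (j+a)
    have h2 : j + (a+1) = j + a + 1 := rfl
    rw [h2]; omega

lemma s_one : s 1 = 2 := by
  have := blk 0
  have h := v_zero
  have h0 := s_zero
  simp only [Nat.zero_add] at this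
  omega

lemma s_ge (j : ℕ) (h : 1 ≤ j) : j + 1 ≤ s j := by
  have := s_add 1 (j-1)
  have h1 := s_one
  rw [Nat.add_sub_cancel' h] at this
  omega

lemma s_strict : StrictMono s := strictMono_nat_of_lt_succ (fun j => by have := s_succ j; omega)

lemma s_inj {a b : ℕ} (h : s a = s b) : a = b := s_strict.injective h

/-- every position lies in a block -/
lemma ex_blk (i : ℕ) : ∃ j, j ≤ i ∧ (s j = i ∨ (s j + 1 = i ∧ s (j+1) = i + 1)) := by
  induction i with
  | zero => exact ⟨0, le_refl _, Or.inl rfl⟩
  | succ i ih =>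
    obtain ⟨j, hj, h⟩ := ih
    have := s_succ j
    by_cases h2 : s (j+1) = i + 1
    · exact ⟨j+1, by omega, Or.inl h2⟩
    · exact ⟨j, by omega, Or.inr ⟨by omega, by omega⟩⟩

lemma s_even (j : ℕ) : v (s j) = 0 ∨ v (s j) = 2 ∨ v (s j) = 4 := by
  have := blk j; omega

lemma dec_even {i : ℕ} (h : v i = 0 ∨ v i = 2 ∨ v i = 4) : ∃ j, s j = i := by
  obtain ⟨j, -, hj | ⟨hj, hj2⟩⟩ := ex_blk i
  · exact ⟨j, hj⟩
  · exfalso
    have := blk j
    rw [hj] at this
    omega

lemma dec_odd {i : ℕ} (h : v i = 1 ∨ v i = 3) : ∃ j, s j + 1 = i ∧ s (j+1) = i + 1 := by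
  obtain ⟨j, -, hj | ⟨hj, hj2⟩⟩ := ex_blk i
  · exfalso
    have := s_even j
    rw [hj] at this
    omega
  · exact ⟨j, hj, hj2⟩

/-- the legal pairs -/
def Leg (a b : ℕ) : Prop :=
  (a = 0 ∧ b = 1) ∨ (a = 0 ∧ b = 4) ∨ (a = 1 ∧ b = 0) ∨ (a = 1 ∧ b = 2) ∨ (a = 2 ∧ b = 1) ∨
  (a = 2 ∧ b = 3) ∨ (a = 3 ∧ b = 0) ∨ (a = 3 ∧ b = 4) ∨ (a = 4 ∧ b = 2)

lemma leg (i : ℕ) : Leg (v i) (v (i+1)) := by
  induction i using Nat.strong_induction_on with
  | _ i ih =>
    obtain ⟨j, hj, h | ⟨h, h2⟩⟩ := ex_blk i
    · have b1 := blk j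
      have b2 := blk (j+1)
      by_cases hji : j = i
      · have : i = 0 := by
          by_contra hne
          have := s_ge j (by omega)
          omega
        subst this
        subst hji
        have h1 := s_one
        have h0 := v_zero
        simp only [h] at b1
        unfold Leg
        simp only [Nat.zero_add] at b1 ⊢
        omega
      · have l := ih j (by omega)
        unfold Leg at l ⊢
        rw [h] at b1
        by_cases h3 : s (j+1) = i + 1
        · rw [h3] at b2
          rcases b1 with ⟨a1, a2, a3, a4⟩ | ⟨a1, a2, a3, a4⟩ | ⟨a1, a2, a3⟩ | ⟨a1, a2, a3, a4⟩ | ⟨a1, a2, a3⟩ <;>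
            first
            | (exfalso; omega)
            | (rcases b2 with b2 | b2 | b2 | b2 | b2 <;> omega)
        · clear b2 l
          rcases b1 with b1 | b1 | b1 | b1 | b1 <;> omega
    · have b1 := blk j
      have b2 := blk (j+1)
      by_cases hji : j = i
      · exfalso
        by_cases hz : i = 0
        · omega
        · have := s_ge j (by omega)
          omega
      · have l := ih j (by omega)
        unfold Leg at l ⊢
        rw [h2] at b2
        rw [h] at b1
        rcases b1 with ⟨a1, a2, a3, a4⟩ | ⟨a1, a2, a3, a4⟩ | ⟨a1, a2, a3⟩ | ⟨a1, a2, a3, a4⟩ | ⟨a1, a2, a3⟩ <;>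
            first
            | (exfalso; omega)
            | (rcases b2 with b2 | b2 | b2 | b2 | b2 <;> omega)

lemma leg' {i k : ℕ} (h : k = i + 1) : Leg (v i) (v k) := by rw [h]; exact leg i

lemma no121 {i : ℕ} (h0 : v i = 1) (h1 : v (i+1) = 2) (h2 : v (i+2) = 1) : False := by
  obtain ⟨j, hj⟩ := dec_even (i := i+1) (by omega)
  have b1 := blk j
  obtain ⟨j', hj', hj2⟩ := dec_odd (i := i) (by omega)
  have e : j = j' + 1 := s_inj (by rw [hj, hj2])
  subst e
  have b2 := blk j'
  have l := leg j'
  unfold Leg at l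
  rw [hj] at b1
  rw [hj'] at b2
  have : v (i+1+1) = v (i+2) := rfl
  omega

lemma no212 {i : ℕ} (h0 : v i = 2) (h1 : v (i+1) = 1) (h2 : v (i+2) = 2) : False := by
  obtain ⟨j, hj⟩ := dec_even (i := i) (by omega)
  have b1 := blk j
  have b2 := blk (j+1)
  have l := leg j
  unfold Leg at l
  rw [hj] at b1
  have : s (j+1) = i + 2 := by omega
  rw [this] at b2
  omega

lemma no304 {i : ℕ} (h0 : v i = 3) (h1 : v (i+1) = 0) (h2 : v (i+2) = 4) : False := by
  obtain ⟨j, hj⟩ := dec_even (i := i+1) (by omega)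
  have b1 := blk j
  obtain ⟨j', hj', hj2⟩ := dec_odd (i := i) (by omega)
  have e : j = j' + 1 := s_inj (by rw [hj, hj2])
  subst e
  have b2 := blk j'
  have l := leg j'
  unfold Leg at l
  rw [hj] at b1
  rw [hj'] at b2
  have : v (i+1+1) = v (i+2) := rfl
  omega

/-- agreement of two factors -/
def E (k k' l : ℕ) : Prop := ∀ i < l, v (k+i) = v (k'+i)

lemma E.first {k k' l : ℕ} (h : E k k' l) (hl : 0 < l) : v k = v k' := by
  have := h 0 hl; simpa using this

lemma E.last {k k' l : ℕ} (h : E k k' (l+1)) : v (k+l) = v (k'+l) := h l (by omega)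

lemma E.sub {k k' l : ℕ} (h : E k k' l) (a b : ℕ) (hab : a + b ≤ l) : E (k+a) (k'+a) b := by
  intro i hi
  have := h (a+i) (by omega)
  rw [Nat.add_assoc, Nat.add_assoc]; exact this

lemma core (l : ℕ) : ∀ j j', E (s j) (s j') l → (v (s j + l) = 0 ∨ v (s j + l) = 2 ∨ v (s j + l) = 4) →
    (v (s j' + l) = 0 ∨ v (s j' + l) = 2 ∨ v (s j' + l) = 4) →
    ∃ l', s (j + l') = s j + l ∧ s (j' + l') = s j' + l ∧ E j j' l' := by
  induction l using Nat.strong_induction_on with
  | _ l ih =>
    intro j j' hE h1 h2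
    rcases Nat.eq_zero_or_pos l with rfl | hl
    · exact ⟨0, rfl, rfl, fun i hi => by omega⟩
    · have hf := hE.first hl
      have b1 := blk j
      have b2 := blk j'
      have c1 := s_even (j+1)
      have c2 := s_even (j'+1)
      by_cases hl1 : l = 1
      · subst hl1
        have : v j = v j' ∧ s (j+1) = s j + 1 ∧ s (j'+1) = s j' + 1 := by omega
        refine ⟨1, this.2.1, this.2.2, fun i hi => ?_⟩
        have : i = 0 := by omega
        subst this; simpa using this.1
      · have hg := hE 1 (by omega)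
        by_cases hd : s (j+1) = s j + 2
        · have hd' : s (j'+1) = s j' + 2 := by
            by_contra hne
            have : s (j'+1) = s j' + 1 := by omega
            rw [this] at c2
            omega
          have hv : v j = v j' := by omega
          have h3 := ih (l-2) (by omega) (j+1) (j'+1) (by
            rw [hd, hd']; exact hE.sub 2 (l-2) (by omega))
            (by rw [hd]; rw [show s j + 2 + (l-2) = s j + l by omega]; exact h1)
            (by rw [hd']; rw [show s j' + 2 + (l-2) = s j' + l by omega]; exact h2)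
          obtain ⟨l', e1, e2, e3⟩ := h3
          refine ⟨l'+1, ?_, ?_, ?_⟩
          · rw [show j + (l'+1) = j + 1 + l' by ring, e1]; omega
          · rw [show j' + (l'+1) = j' + 1 + l' by ring, e2]; omega
          · intro i hi
            rcases Nat.eq_zero_or_pos i with rfl | hi0
            · simpa using hv
            · have := e3 (i-1) (by omega)
              rw [show j + 1 + (i-1) = j + i by omega, show j' + 1 + (i-1) = j' + i by omega] at this
              exact this
        · have hd1 : s (j+1) = s j + 1 := by omega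
          have hd' : s (j'+1) = s j' + 1 := by
            by_contra hne
            have : s (j'+1) = s j' + 2 := by omega
            rw [hd1] at c1
            omega
          have hv : v j = v j' := by omega
          have h3 := ih (l-1) (by omega) (j+1) (j'+1) (by
            rw [hd1, hd']; exact hE.sub 1 (l-1) (by omega))
            (by rw [hd1]; rw [show s j + 1 + (l-1) = s j + l by omega]; exact h1)
            (by rw [hd']; rw [show s j' + 1 + (l-1) = s j' + l by omega]; exact h2)
          obtain ⟨l', e1, e2, e3⟩ := h3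
          refine ⟨l'+1, ?_, ?_, ?_⟩
          · rw [show j + (l'+1) = j + 1 + l' by ring, e1]; omega
          · rw [show j' + (l'+1) = j' + 1 + l' by ring, e2]; omega
          · intro i hi
            rcases Nat.eq_zero_or_pos i with rfl | hi0
            · simpa using hv
            · have := e3 (i-1) (by omega)
              rw [show j + 1 + (i-1) = j + i by omega, show j' + 1 + (i-1) = j' + i by omega] at this
              exact this

/-- version of `core` with named positions -/
lemma core' {j j' k k' l e e' : ℕ} (hk : s j = k) (hk' : s j' = k') (hE : E k k' l)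
    (he : k + l = e) (he' : k' + l = e')
    (h1 : v e = 0 ∨ v e = 2 ∨ v e = 4) (h2 : v e' = 0 ∨ v e' = 2 ∨ v e' = 4) :
    ∃ l', s (j + l') = e ∧ s (j' + l') = e' ∧ E j j' l' ∧ l' ≤ l ∧ (0 < l → 0 < l') := by
  subst hk hk' he he'
  obtain ⟨l', a, b, c⟩ := core l j j' hE h1 h2
  refine ⟨l', a, b, c, ?_, ?_⟩
  · have := s_add j l'; omega
  · intro h
    rcases Nat.eq_zero_or_pos l' with h0 | h0
    · subst h0; simp at a; omega
    · exact h0


lemma b01 {j i : ℕ} (hj : s j = i) (h0 : v i = 0) (h1 : v (i+1) = 1) : v j = 0 ∧ s (j+1) = i + 2 := by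
  have b := blk j
  rw [hj] at b
  rcases b with b | b | b | b | b
  · omega
  · omega
  · omega
  · omega
  · exfalso
    have c := s_even (j+1)
    rw [b.2.2] at c
    omega

lemma b04 {j i : ℕ} (hj : s j = i) (h0 : v i = 0) (h1 : v (i+1) = 4) : v j = 4 ∧ s (j+1) = i + 1 := by
  have b := blk j
  rw [hj] at b
  omega

lemma b23 {j i : ℕ} (hj : s j = i) (h0 : v i = 2) (h1 : v (i+1) = 3) : v j = 1 ∧ s (j+1) = i + 2 := by
  have b := blk j
  rw [hj] at b
  omega

lemma b21 {j i : ℕ} (hj : s j = i) (h0 : v i = 2) (h1 : v (i+1) = 1) : v j = 3 ∧ s (j+1) = i + 2 := by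
  have b := blk j
  rw [hj] at b
  omega

lemma b4 {j i : ℕ} (hj : s j = i) (h0 : v i = 4) : v j = 2 ∧ s (j+1) = i + 1 := by
  have b := blk j
  rw [hj] at b
  omega

lemma b0 {j i : ℕ} (hj : s j = i) (h0 : v i = 0) : v j = 0 ∨ v j = 4 := by
  have b := blk j
  rw [hj] at b
  omega

lemma b2 {j i : ℕ} (hj : s j = i) (h0 : v i = 2) : v j = 1 ∨ v j = 3 := by
  have b := blk j
  rw [hj] at b
  omega

/-- the block ending at position `i` -/
lemma bprev {j i : ℕ} (hj : s j = i + 1) : ∃ j', j = j' + 1 ∧
    ((v i = 1 ∧ (v j' = 0 ∨ v j' = 3)) ∨ (v i = 3 ∧ v j' = 1) ∨ (v i = 0 ∧ v j' = 4) ∨ (v i = 4 ∧ v j' = 2)) := by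
  rcases j with _ | j'
  · have := s_zero; omega
  · refine ⟨j', rfl, ?_⟩
    have b := blk j'
    by_cases h : s (j'+1) = s j' + 2
    · have h2 : s j' + 1 = i := by omega
      rw [h2] at b
      omega
    · have h2 : s j' = i := by omega
      rw [h2] at b
      omega

/-- no factors `y 3 y 1` and `y 1 y 3` -/
lemma noQ (l : ℕ) : ∀ k, (E k (k+l+1) l → v (k+l) = 3 → v (k+2*l+1) = 1 → False) ∧
    (E k (k+l+1) l → v (k+l) = 1 → v (k+2*l+1) = 3 → False) := by
  induction l using Nat.strong_induction_on with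
  | _ l ih =>
    intro k
    rcases Nat.eq_zero_or_pos l with rfl | hl
    · have l1 := leg k
      unfold Leg at l1
      simp only [Nat.mul_zero, Nat.add_zero] at *
      exact ⟨fun _ _ _ => by omega, fun _ _ _ => by omega⟩
    · obtain ⟨m, rfl⟩ : ∃ m, l = m + 1 := ⟨l-1, by omega⟩
      refine ⟨fun hE h1 h2 => ?_, fun hE h1 h2 => ?_⟩
      · -- last letter of y is 2
        have e1 := hE.last
        have e2 := hE.first (by omega)
        have l1 := leg' (i := k + m) (k := k + (m+1)) (by omega)
        have l2 := leg' (i := k + (m+1) + 1 + m) (k := k + 2*(m+1) + 1) (by omega)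
        have l3 := leg' (i := k + (m+1)) (k := k + (m+1) + 1) (by omega)
        unfold Leg at l1 l2 l3
        have lastv : v (k+m) = 2 := by omega
        have lastv' : v (k + (m+1) + 1 + m) = 2 := by omega
        have fv : v k = 0 ∨ v k = 4 := by omega
        obtain ⟨j, hj⟩ := dec_even (i := k) (by omega)
        obtain ⟨i, hi⟩ := dec_even (i := k+m) (by omega)
        obtain ⟨bi, bi'⟩ := b23 hi lastv h1
        have bi'' : s (i+1) = k + (m+1) + 1 := by rw [bi']; omega
        obtain ⟨l', c1, c2, c3, c4, -⟩ := core' (l := m) hj bi'' (fun i hi => hE i (by omega)) rfl rfl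
          (by omega) (by omega)
        have hij : i = j + l' := s_inj (by rw [hi, c1])
        subst hij
        obtain ⟨d1, -⟩ := b21 (j := j + l' + 1 + l') (i := k + (m+1) + 1 + m) c2 lastv' (by
          rw [← h2]; congr 1; omega)
        exact (ih l' (by omega) j).2 (by rw [show j + l' + 1 = j + l' + 1 from rfl]; exact c3) bi
          (by rw [← d1]; congr 1; omega)
      · have e1 := hE.last
        have e2 := hE.first (by omega)
        have l1 := leg' (i := k + m) (k := k + (m+1)) (by omega)
        have l2 := leg' (i := k + (m+1) + 1 + m) (k := k + 2*(m+1) + 1) (by omega)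
        have l3 := leg' (i := k + (m+1)) (k := k + (m+1) + 1) (by omega)
        unfold Leg at l1 l2 l3
        have lastv : v (k+m) = 2 := by omega
        have lastv' : v (k + (m+1) + 1 + m) = 2 := by omega
        have fv : v k = 0 ∨ v k = 2 := by omega
        obtain ⟨j, hj⟩ := dec_even (i := k) (by omega)
        obtain ⟨i, hi⟩ := dec_even (i := k+m) (by omega)
        obtain ⟨bi, bi'⟩ := b21 hi lastv h1
        have bi'' : s (i+1) = k + (m+1) + 1 := by rw [bi']; omega
        obtain ⟨l', c1, c2, c3, c4, -⟩ := core' (l := m) hj bi'' (fun i hi => hE i (by omega)) rfl rfl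
          (by omega) (by omega)
        have hij : i = j + l' := s_inj (by rw [hi, c1])
        subst hij
        obtain ⟨d1, -⟩ := b23 (j := j + l' + 1 + l') (i := k + (m+1) + 1 + m) c2 lastv' (by
          rw [← h2]; congr 1; omega)
        exact (ih l' (by omega) j).1 c3 bi
          (by rw [← d1]; congr 1; omega)

/-- no factor `3 y 0 y 4` -/
lemma noPA {l c : ℕ} (h0 : v c = 3) (hE : E (c+1) (c+l+2) l) (h1 : v (c+l+1) = 0)
    (h2 : v (c+2*l+2) = 4) : False := by
  rcases Nat.eq_zero_or_pos l with rfl | hl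
  · exact no304 h0 h1 h2
  · obtain ⟨m, rfl⟩ : ∃ m, l = m + 1 := ⟨l-1, by omega⟩
    have e1 := hE.last
    have e2 := hE.first (by omega)
    have l1 := leg' (i := c+1+m) (k := c+(m+1)+1) (by omega)
    have l2 := leg' (i := c+(m+1)+2+m) (k := c+2*(m+1)+2) (by omega)
    have l3 := leg' (i := c) (k := c+1) (by omega)
    have l4 := leg' (i := c+(m+1)+1) (k := c+(m+1)+2) (by omega)
    unfold Leg at l1 l2 l3 l4
    have lastv : v (c+1+m) = 3 := by omega
    have fv : v (c+(m+1)+2) = 4 := by omega
    obtain ⟨i, hi⟩ := dec_even (i := c+(m+1)+1) (by omega)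
    obtain ⟨d1, -⟩ := b04 hi h1 fv
    have hi' : s i = (c + 1 + m) + 1 := by rw [hi]; omega
    obtain ⟨i', hi1, hi2⟩ := bprev hi'
    subst hi1
    have l5 := leg i'
    unfold Leg at l5
    omega


lemma vc {a b : ℕ} (h : a = b) : v a = v b := by rw [h]

/-- no squares and no factors `y 4 y 0` in `v` -/
lemma sq_aux (M : ℕ) :
    (∀ k r, 1 ≤ r → 4 * r + 1 = M → E k (k+r) r → False) ∧
    (∀ k l, 4 * l + 4 = M → E k (k+l+1) l → v (k+l) = 4 → v (k+2*l+1) = 0 → False) := by
  induction M using Nat.strong_induction_on with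
  | _ M ih =>
    refine ⟨?_, ?_⟩
    · -- squares
      -- first the aligned case
      have hev : ∀ k r, 1 ≤ r → 4 * r + 1 = M → E k (k+r) r → (v k = 0 ∨ v k = 2 ∨ v k = 4) → False := by
        intro k r hr hM hE hk
        obtain ⟨m, rfl⟩ : ∃ m, r = m + 1 := ⟨r-1, by omega⟩
        have e1 := hE.last
        have e2 := hE.first (by omega)
        obtain ⟨j, hj⟩ := dec_even (i := k) hk
        obtain ⟨j', hj'⟩ := dec_even (i := k+(m+1)) (by omega)
        have l1 := leg' (i := k+m) (k := k+(m+1)) (by omega)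
        have l2 := leg' (i := k+(m+1)+m) (k := k+(m+1)+(m+1)) (by omega)
        by_cases hend : v (k+(m+1)+(m+1)) = 0 ∨ v (k+(m+1)+(m+1)) = 2 ∨ v (k+(m+1)+(m+1)) = 4
        · obtain ⟨l', c1, c2, c3, c4, c5⟩ := core' (l := m+1) hj hj' hE rfl rfl (by omega) hend
          have hjj : j' = j + l' := s_inj (by rw [hj', c1])
          subst hjj
          have c6 := c5 (by omega)
          -- l' = m+1 impossible
          by_cases hlt : l' < m + 1
          · exact (ih (4*l'+1) (by omega)).1 j l' (by omega) rfl c3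
          · have hl' : l' = m + 1 := by omega
            subst hl'
            have f1 := c3.first (by omega)
            -- all blocks are single
            have g1 := s_succ j
            have g2 := s_add (j+1) m
            have g3 : s (j + (m+1)) = s (j+1+m) := by congr 1; omega
            have g4 : s (j+1) = s j + 1 := by omega
            have b := blk j
            have l3 := leg j
            unfold Leg at l3 l1 l2
            rcases Nat.eq_zero_or_pos m with rfl | hm
            · have : v (j + (0+1)) = v (j+1) := rfl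
              omega
            · have g5 := s_succ (j+1)
              have g6 := s_add (j+1+1) (m-1)
              have g7 : s (j + (m+1)) = s (j+1+1+(m-1)) := by congr 1; omega
              have g8 : s (j+1+1) = s (j+1) + 1 := by omega
              have bb := blk (j+1)
              have hv1 : v (j+1) = 2 := by omega
              have hv0 : v j = 4 := by omega
              have l4 := leg (j+1)
              unfold Leg at l4
              -- v (j+2) ∈ {1,3}
              rcases Nat.lt_or_ge 1 m with hm2 | hm2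
              · have g9 := s_succ (j+1+1)
                have g10 := s_add (j+1+1+1) (m-2)
                have g11 : s (j + (m+1)) = s (j+1+1+1+(m-2)) := by congr 1; omega
                have b3 := blk (j+1+1)
                omega
              · have hm3 : m = 1 := by omega
                subst hm3
                have : v (j + (1+1)) = v (j+1+1) := rfl
                omega
        · -- last letter 0, next letter 1
          unfold Leg at l1 l2
          have lastv : v (k+m) = 0 := by omega
          have nx : v (k+(m+1)+(m+1)) = 1 := by omega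
          obtain ⟨l', c1, c2, c3, c4, c5⟩ := core' (l := m) hj hj' (fun i hi => hE i (by omega)) rfl rfl
            (by omega) (by omega)
          have d1 : v (k+(m+1)) = 4 := by omega
          obtain ⟨b1, b1'⟩ := b04 (j := j+l') c1 lastv (by exact (vc (by omega)).trans d1)
          have hjj : j' = j + l' + 1 := s_inj (by rw [hj', b1']; omega)
          subst hjj
          obtain ⟨b2, -⟩ := b01 (j := j+l'+1+l') c2 (by omega) (by exact (vc (by omega)).trans nx)
          exact (ih (4*l'+4) (by omega)).2 j l' rfl c3 b1 (by exact (vc (by omega)).trans b2)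
      intro k r hr hM hE
      have hv := v_le k
      by_cases hk : v k = 0 ∨ v k = 2 ∨ v k = 4
      · exact hev k r hr hM hE hk
      · have hk1 : v k = 1 ∨ v k = 3 := by omega
        have hk0 : 1 ≤ k := by
          by_contra h
          have : k = 0 := by omega
          subst this
          have := v_zero
          omega
        obtain ⟨c, rfl⟩ : ∃ c, k = c + 1 := ⟨k-1, by omega⟩
        obtain ⟨m, rfl⟩ : ∃ m, r = m + 1 := ⟨r-1, by omega⟩
        have e1 := hE.last
        have e2 := hE.first (by omega)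
        have l0 := leg c
        have l1 := leg' (i := c+1+m) (k := c+1+(m+1)) (by omega)
        have l2 := leg' (i := c+1+(m+1)+m) (k := c+1+(m+1)+(m+1)) (by omega)
        by_cases hcd : v c = v (c+1+m)
        · -- shift left
          refine hev c (m+1) hr hM (fun i hi => ?_) (by unfold Leg at l0; omega)
          rcases Nat.eq_zero_or_pos i with rfl | hi0
          · rw [Nat.add_zero, Nat.add_zero, hcd]; exact vc (by omega)
          · have := hE (i-1) (by omega)
            rw [vc (show c + i = c + 1 + (i-1) by omega), this]; exact vc (by omega)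
        · by_cases hq : v (c+1+(m+1)+(m+1)) = 1
          · -- shift right
            have l3 := leg (c+1)
            unfold Leg at l0 l1 l2 l3
            refine hev (c+1+1) (m+1) hr hM (fun i hi => ?_) (by omega)
            rcases Nat.lt_or_ge i m with him | him
            · have := hE (i+1) (by omega)
              rw [vc (show c + 1 + 1 + i = c + 1 + (i+1) by omega), this]; exact vc (by omega)
            · have : i = m := by omega
              subst this
              rw [vc (show c + 1 + 1 + i = c + 1 + (i+1) by omega),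
                vc (show c + 1 + 1 + (i+1) + i = c+1+(i+1)+(i+1) by omega)]
              omega
          · unfold Leg at l0 l1 l2
            have hr2 : 1 ≤ m := by
              by_contra h
              have : m = 0 := by omega
              subst this
              simp only [Nat.add_zero, Nat.zero_add] at *
              omega
            obtain ⟨n, rfl⟩ : ∃ n, m = n + 1 := ⟨m-1, by omega⟩
            have hx : v (c+1) = 1 := by omega
            have hx' : v (c+1+(n+1+1)) = 1 := by omega
            obtain ⟨j, hj⟩ := dec_even (i := c) (by omega)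
            obtain ⟨j', hj'⟩ := dec_even (i := c+1+(n+1)) (by omega)
            have hcases : (v c = 2 ∧ v (c+1+(n+1)) = 0 ∧ v (c+1+(n+1+1)+(n+1+1)) = 4) ∨
              (v c = 0 ∧ v (c+1+(n+1)) = 2 ∧ v (c+1+(n+1+1)+(n+1+1)) = 3) := by omega
            rcases hcases with ⟨p1, p2, p3⟩ | ⟨p1, p2, p3⟩
            · obtain ⟨b1, b1'⟩ := b21 hj p1 hx
              obtain ⟨b2, b2'⟩ := b01 hj' p2 (by rw [← hx']; exact vc (by omega))
              obtain ⟨l', c1, c2, c3, c4, c5⟩ := core' (l := n) (k := c+2) (k' := c+1+(n+1)+2)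
                (e := c+1+(n+1)) (e' := c+1+(n+1+1)+(n+1)) b1' b2' (fun i hi => by
                  have := hE (i+1) (by omega)
                  rw [vc (show c + 2 + i = c + 1 + (i+1) by omega), this]; exact vc (by omega))
                (by omega) (by omega) (by omega) (by omega)
              have hjj : j' = j + 1 + l' := s_inj (by rw [hj', c1])
              subst hjj
              obtain ⟨b3, -⟩ := b04 (j := j+1+l'+1+l') c2 (by omega) (by exact (vc (by omega)).trans p3)
              refine noPA (l := l') (c := j) b1 ?_ ?_ ?_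
              · rw [show j + l' + 2 = j + 1 + l' + 1 by omega]; exact c3
              · exact (vc (by omega)).trans b2
              · exact (vc (by omega)).trans b3
            · obtain ⟨b1, b1'⟩ := b01 hj p1 hx
              obtain ⟨b2, b2'⟩ := b21 hj' p2 (by rw [← hx']; exact vc (by omega))
              obtain ⟨l', c1, c2, c3, c4, c5⟩ := core' (l := n) (k := c+2) (k' := c+1+(n+1)+2)
                (e := c+1+(n+1)) (e' := c+1+(n+1+1)+(n+1)) b1' b2' (fun i hi => by
                  have := hE (i+1) (by omega)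
                  rw [vc (show c + 2 + i = c + 1 + (i+1) by omega), this]; exact vc (by omega))
                (by omega) (by omega) (by omega) (by omega)
              have hjj : j' = j + 1 + l' := s_inj (by rw [hj', c1])
              subst hjj
              obtain ⟨b3, -⟩ := b23 (j := j+1+l'+1+l') c2 (by omega) (by exact (vc (by omega)).trans p3)
              refine (noQ l' (j+1)).1 c3 b2 ?_
              exact (vc (by omega)).trans b3
    · -- y 4 y 0
      intro k l hM hE h1 h2
      rcases Nat.eq_zero_or_pos l with rfl | hl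
      · have l1 := leg k
        unfold Leg at l1
        simp only [Nat.mul_zero, Nat.add_zero] at *
        omega
      · obtain ⟨m, rfl⟩ : ∃ m, l = m + 1 := ⟨l-1, by omega⟩
        have e1 := hE.last
        have e2 := hE.first (by omega)
        have l1 := leg' (i := k + m) (k := k + (m+1)) (by omega)
        have l2 := leg' (i := k + (m+1) + 1 + m) (k := k + 2*(m+1) + 1) (by omega)
        have l3 := leg' (i := k + (m+1)) (k := k + (m+1) + 1) (by omega)
        unfold Leg at l1 l2 l3
        have lastv : v (k+m) = 3 := by omega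
        have fv : v k = 2 := by omega
        obtain ⟨j, hj⟩ := dec_even (i := k) (by omega)
        obtain ⟨i, hi⟩ := dec_even (i := k+(m+1)) (by omega)
        obtain ⟨bi, bi'⟩ := b4 hi h1
        obtain ⟨l', c1, c2, c3, c4, c5⟩ := core' (l := m+1) (e := k+(m+1)) (e' := k+2*(m+1)+1)
          hj bi' hE rfl (by omega) (by omega) (by omega)
        have hij : i = j + l' := s_inj (by rw [hi, c1])
        subst hij
        have c6 := c5 (by omega)
        obtain ⟨n, rfl⟩ : ∃ n, l' = n + 1 := ⟨l'-1, by omega⟩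
        have f1 := c3.first (by omega)
        have f2 := c3.last
        obtain ⟨j', hj'1, hj'2⟩ := bprev (j := j+(n+1)) (i := k+m) (by rw [c1]; omega)
        have hj3 : j' = j + n := by omega
        subst hj3
        have q1 : v (j+n) = 1 := by omega
        have d1 := b0 c2 h2
        have l4 := leg' (i := j+(n+1)+1+n) (k := j+(n+1)+1+(n+1)) (by omega)
        have l5 := leg' (i := j+(n+1)) (k := j+(n+1)+1) (by omega)
        unfold Leg at l4 l5
        have q2 : v (j+(n+1)+1+(n+1)) = 0 := by omega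
        have d2 := b2 hj fv
        rcases d2 with d2 | d2
        · -- 1 2 1
          exact no121 (i := j+n) q1 (by exact (vc (by omega)).trans bi)
            (by rw [← d2, f1]; exact vc (by omega))
        · -- shift left
          have hj0 : 1 ≤ j := by
            by_contra h
            have : j = 0 := by omega
            subst this
            have := v_zero
            omega
          obtain ⟨a, rfl⟩ : ∃ a, j = a + 1 := ⟨j-1, by omega⟩
          have l6 := leg a
          unfold Leg at l6
          have q3 : v a = 2 := by omega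
          have g1 := s_add (a+1+1) n
          have g2 := blk (a+1)
          have g3 : s (a+1+(n+1)) = s (a+1+1+n) := by congr 1; omega
          refine (ih (4*(n+2)+1) (by omega)).1 a (n+2) (by omega) rfl (fun i hi => ?_)
          rcases Nat.eq_zero_or_pos i with rfl | hi0
          · rw [Nat.add_zero, Nat.add_zero, q3, ← bi]; exact vc (by omega)
          · have := c3 (i-1) (by omega)
            rw [vc (show a + i = a + 1 + (i-1) by omega), this]; exact vc (by omega)

lemma noSq {k r : ℕ} (hr : 1 ≤ r) (h : E k (k+r) r) : False := (sq_aux (4*r+1)).1 k r hr rfl h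

lemma no40 {k l : ℕ} (h : E k (k+l+1) l) (h1 : v (k+l) = 4) (h2 : v (k+2*l+1) = 0) : False :=
  (sq_aux (4*l+4)).2 k l rfl h h1 h2


/-- the six patterns `2y0y4`, `3y0y2`, `y4y1`, `y42y0`, `0y23y0`, `4y1y4` do not occur -/
lemma chain (M : ℕ) :
    (∀ l c, 2*l+3 = M → v c = 2 → E (c+1) (c+l+2) l → v (c+l+1) = 0 → v (c+2*l+2) = 4 → False) ∧
    (∀ l c, 2*l+3 = M → v c = 3 → E (c+1) (c+l+2) l → v (c+l+1) = 0 → v (c+2*l+2) = 2 → False) ∧
    (∀ l k, 2*l+2 = M → E k (k+l+1) l → v (k+l) = 4 → v (k+2*l+1) = 1 → False) ∧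
    (∀ l k, 2*l+3 = M → E k (k+l+2) l → v (k+l) = 4 → v (k+l+1) = 2 → v (k+2*l+2) = 0 → False) ∧
    (∀ l c, 2*l+4 = M → v c = 0 → E (c+1) (c+l+3) l → v (c+l+1) = 2 → v (c+l+2) = 3 →
      v (c+2*l+3) = 0 → False) ∧
    (∀ l c, 2*l+3 = M → v c = 4 → E (c+1) (c+l+2) l → v (c+l+1) = 1 → v (c+2*l+2) = 4 → False) := by
  induction M using Nat.strong_induction_on with
  | _ M ih =>
    refine ⟨?_, ?_, ?_, ?_, ?_, ?_⟩
    · -- N0 : 2 y 0 y 4
      intro l c hM h0 hE h1 h2
      rcases Nat.eq_zero_or_pos l with rfl | hl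
      · have l1 := leg c
        unfold Leg at l1
        simp only [Nat.mul_zero, Nat.add_zero] at *
        omega
      · obtain ⟨m, rfl⟩ : ∃ m, l = m + 1 := ⟨l-1, by omega⟩
        have e1 := hE.last
        have e2 := hE.first (by omega)
        have l1 := leg' (i := c+1+m) (k := c+(m+1)+1) (by omega)
        have l2 := leg' (i := c+(m+1)+2+m) (k := c+2*(m+1)+2) (by omega)
        have l3 := leg' (i := c) (k := c+1) (by omega)
        have l4 := leg' (i := c+(m+1)+1) (k := c+(m+1)+2) (by omega)
        unfold Leg at l1 l2 l3 l4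
        have lastv : v (c+1+m) = 3 := by omega
        have fv : v (c+1) = 1 := by omega
        have fv' : v (c+(m+1)+2) = 1 := by omega
        obtain ⟨j, hj⟩ := dec_even (i := c) (by omega)
        obtain ⟨i, hi⟩ := dec_even (i := c+(m+1)+1) (by omega)
        obtain ⟨bj, bj'⟩ := b21 hj h0 fv
        obtain ⟨bi, bi'⟩ := b01 hi h1 fv'
        obtain ⟨l', c1, c2, c3, c4, -⟩ := core' (l := m) (k := c+2) (k' := c+(m+1)+1+2)
          (e := c+(m+1)+1) (e' := c+2*(m+1)+2) bj' bi' (fun i hi => by
            have := hE (i+1) (by omega)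
            rw [vc (show c + 2 + i = c + 1 + (i+1) by omega), this]; exact vc (by omega))
          (by omega) (by omega) (by omega) (by omega)
        have hij : i = j + 1 + l' := s_inj (by rw [hi, c1])
        subst hij
        obtain ⟨d1, -⟩ := b4 c2 h2
        refine (ih (2*l'+3) (by omega)).2.1 l' j rfl bj ?_ ?_ ?_
        · rw [show j + l' + 2 = j + 1 + l' + 1 by omega]; exact c3
        · exact (vc (by omega)).trans bi
        · exact (vc (by omega)).trans d1
    · -- N1 : 3 y 0 y 2
      intro l c hM h0 hE h1 h2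
      rcases Nat.eq_zero_or_pos l with rfl | hl
      · have l1 := leg (c+1)
        unfold Leg at l1
        simp only [Nat.mul_zero, Nat.add_zero] at *
        have : v (c+1+1) = v (c+2) := rfl
        omega
      · obtain ⟨m, rfl⟩ : ∃ m, l = m + 1 := ⟨l-1, by omega⟩
        have e1 := hE.last
        have e2 := hE.first (by omega)
        have l1 := leg' (i := c+1+m) (k := c+(m+1)+1) (by omega)
        have l2 := leg' (i := c+(m+1)+2+m) (k := c+2*(m+1)+2) (by omega)
        have l3 := leg' (i := c) (k := c+1) (by omega)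
        have l4 := leg' (i := c+(m+1)+1) (k := c+(m+1)+2) (by omega)
        unfold Leg at l1 l2 l3 l4
        have lastv : v (c+1+m) = 1 := by omega
        have fv : v (c+1) = 4 := by omega
        have fv' : v (c+(m+1)+2) = 4 := by omega
        obtain ⟨j, hj⟩ := dec_even (i := c+1) (by omega)
        obtain ⟨i, hi⟩ := dec_even (i := c+(m+1)+1) (by omega)
        obtain ⟨bi, bi'⟩ := b04 hi h1 fv'
        obtain ⟨l', c1, c2, c3, c4, c5⟩ := core' (l := m+1) (k := c+1) (k' := c+(m+1)+2)
          (e := c+(m+1)+1) (e' := c+2*(m+1)+2) hj bi' hE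
          (by omega) (by omega) (by omega) (by omega)
        have hij : i = j + l' := s_inj (by rw [hi, c1])
        subst hij
        have c6 := c5 (by omega)
        obtain ⟨n, rfl⟩ : ∃ n, l' = n + 1 := ⟨l'-1, by omega⟩
        have d1 := b2 c2 h2
        have f2 := c3.last
        have l5 := leg' (i := j+n) (k := j+(n+1)) (by omega)
        have l6 := leg' (i := j+(n+1)+1+n) (k := j+(n+1)+1+(n+1)) (by omega)
        unfold Leg at l5 l6
        have q : v (j+(n+1)+1+(n+1)) = 1 := by omega
        refine (ih (2*(n+1)+2) (by omega)).2.2.1 (n+1) j rfl c3 bi ?_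
        exact (vc (by omega)).trans q
    · -- N2 : y 4 y 1
      intro l k hM hE h1 h2
      rcases Nat.eq_zero_or_pos l with rfl | hl
      · have l1 := leg k
        unfold Leg at l1
        simp only [Nat.mul_zero, Nat.add_zero] at *
        omega
      · obtain ⟨m, rfl⟩ : ∃ m, l = m + 1 := ⟨l-1, by omega⟩
        have e1 := hE.last
        have e2 := hE.first (by omega)
        have l1 := leg' (i := k+m) (k := k+(m+1)) (by omega)
        have l2 := leg' (i := k+(m+1)+1+m) (k := k+2*(m+1)+1) (by omega)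
        have l3 := leg' (i := k+(m+1)) (k := k+(m+1)+1) (by omega)
        unfold Leg at l1 l2 l3
        have lastv : v (k+m) = 0 := by omega
        have lastv' : v (k+(m+1)+1+m) = 0 := by omega
        have fv : v k = 2 := by omega
        obtain ⟨j, hj⟩ := dec_even (i := k) (by omega)
        obtain ⟨i, hi⟩ := dec_even (i := k+m) (by omega)
        obtain ⟨bi, bi'⟩ := b04 hi lastv h1
        obtain ⟨bi2, bi2'⟩ := b4 bi' h1
        obtain ⟨l', c1, c2, c3, c4, -⟩ := core' (l := m) (k := k) (k' := k+m+1+1)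
          (e := k+m) (e' := k+(m+1)+1+m) hj bi2' (fun i hi => by
            have := hE i (by omega)
            rw [this]; exact vc (by omega))
          (by omega) (by omega) (by omega) (by omega)
        have hij : i = j + l' := s_inj (by rw [hi, c1])
        subst hij
        obtain ⟨d1, -⟩ := b01 c2 lastv' (by exact (vc (by omega)).trans h2)
        refine (ih (2*l'+3) (by omega)).2.2.2.1 l' j rfl c3 bi bi2 ?_
        exact (vc (by omega)).trans d1
    · -- N3 : y 4 2 y 0
      intro l k hM hE h1 h1' h2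
      rcases Nat.eq_zero_or_pos l with rfl | hl
      · have l1 := leg (k+1)
        unfold Leg at l1
        simp only [Nat.mul_zero, Nat.add_zero] at *
        have : v (k+1+1) = v (k+2) := rfl
        omega
      · obtain ⟨m, rfl⟩ : ∃ m, l = m + 1 := ⟨l-1, by omega⟩
        have e1 := hE.last
        have e2 := hE.first (by omega)
        have l1 := leg' (i := k+m) (k := k+(m+1)) (by omega)
        have l2 := leg' (i := k+(m+1)+2+m) (k := k+2*(m+1)+2) (by omega)
        have l3 := leg' (i := k+(m+1)+1) (k := k+(m+1)+2) (by omega)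
        unfold Leg at l1 l2 l3
        have lastv : v (k+m) = 3 := by omega
        have fv : v k = 1 ∨ v k = 3 := by omega
        have hk0 : 1 ≤ k := by
          by_contra h
          have : k = 0 := by omega
          subst this
          have := v_zero
          omega
        obtain ⟨c, rfl⟩ : ∃ c, k = c + 1 := ⟨k-1, by omega⟩
        have l0 := leg c
        unfold Leg at l0
        by_cases hc : v c = 2
        · refine no40 (k := c) (l := m+2) (fun i hi => ?_) ?_ ?_
          · rcases Nat.eq_zero_or_pos i with rfl | hi0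
            · rw [Nat.add_zero, hc, ← h1']; exact vc (by omega)
            · have := hE (i-1) (by omega)
              rw [vc (show c + i = c + 1 + (i-1) by omega), this]; exact vc (by omega)
          · exact (vc (by omega)).trans h1
          · exact (vc (by omega)).trans h2
        · have hc0 : v c = 0 := by omega
          have fv1 : v (c+1) = 1 := by omega
          have fv2 : v (c+1+(m+1)+2) = 1 := by omega
          obtain ⟨j, hj⟩ := dec_even (i := c) (by omega)
          obtain ⟨bj, bj'⟩ := b01 hj hc0 fv1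
          obtain ⟨i, hi⟩ := dec_even (i := c+1+(m+1)) (by omega)
          obtain ⟨bi, bi'⟩ := b4 hi h1
          obtain ⟨bi2, bi2'⟩ := b21 bi' h1' fv2
          have hm1 : 1 ≤ m := by
            by_contra h
            have : m = 0 := by omega
            subst this
            simp only [Nat.add_zero] at *
            omega
          obtain ⟨l', c1, c2, c3, c4, c5⟩ := core' (l := m) (k := c+2) (k' := c+1+(m+1)+1+2)
            (e := c+1+(m+1)) (e' := c+1+2*(m+1)+2) bj' bi2' (fun i hi => by
              have := hE (i+1) (by omega)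
              rw [vc (show c + 2 + i = c + 1 + (i+1) by omega), this]; exact vc (by omega))
            (by omega) (by omega) (by omega) (by omega)
          have hij : i = j + 1 + l' := s_inj (by rw [hi, c1])
          subst hij
          have c6 := c5 (by omega)
          obtain ⟨n, rfl⟩ : ∃ n, l' = n + 1 := ⟨l'-1, by omega⟩
          have d1 := b0 c2 h2
          have f2 := c3.last
          obtain ⟨j', hj'1, hj'2⟩ := bprev (j := j+1+(n+1)) (i := c+1+m) (by rw [c1]; omega)
          have hj3 : j' = j+1+n := by omega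
          subst hj3
          have q1 : v (j+1+n) = 1 := by omega
          have l4 := leg' (i := j+1+(n+1)+1+1+n) (k := j+1+(n+1)+1+1+(n+1)) (by omega)
          unfold Leg at l4
          have q2 : v (j+1+(n+1)+1+1+(n+1)) = 0 := by omega
          refine (ih (2*(n+1)+4) (by omega)).2.2.2.2.1 (n+1) j rfl bj ?_ ?_ ?_ ?_
          · rw [show j + (n+1) + 3 = j + 1 + (n+1) + 1 + 1 by omega]; exact c3
          · exact (vc (by omega)).trans bi
          · exact (vc (by omega)).trans bi2
          · exact (vc (by omega)).trans q2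
    · -- N4 : 0 y 2 3 y 0
      intro l c hM h0 hE h1 h1' h2
      rcases Nat.eq_zero_or_pos l with rfl | hl
      · have l1 := leg c
        unfold Leg at l1
        simp only [Nat.mul_zero, Nat.add_zero] at *
        omega
      · obtain ⟨m, rfl⟩ : ∃ m, l = m + 1 := ⟨l-1, by omega⟩
        have e1 := hE.last
        have e2 := hE.first (by omega)
        have l1 := leg' (i := c+1+m) (k := c+(m+1)+1) (by omega)
        have l2 := leg' (i := c+(m+1)+3+m) (k := c+2*(m+1)+3) (by omega)
        have l3 := leg' (i := c) (k := c+1) (by omega)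
        have l4 := leg' (i := c+(m+1)+2) (k := c+(m+1)+3) (by omega)
        unfold Leg at l1 l2 l3 l4
        have lastv : v (c+1+m) = 1 := by omega
        have fv : v (c+1) = 4 := by omega
        obtain ⟨j, hj⟩ := dec_even (i := c) (by omega)
        obtain ⟨bj, bj'⟩ := b04 hj h0 fv
        obtain ⟨i, hi⟩ := dec_even (i := c+(m+1)+1) (by omega)
        obtain ⟨bi, bi'⟩ := b23 hi h1 h1'
        obtain ⟨l', c1, c2, c3, c4, c5⟩ := core' (l := m+1) (k := c+1) (k' := c+(m+1)+1+2)
          (e := c+(m+1)+1) (e' := c+2*(m+1)+3) bj' bi' (fun i hi => by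
              have := hE i (by omega)
              rw [this])
          (by omega) (by omega) (by omega) (by omega)
        have hij : i = j + 1 + l' := s_inj (by rw [hi, c1])
        subst hij
        have c6 := c5 (by omega)
        obtain ⟨n, rfl⟩ : ∃ n, l' = n + 1 := ⟨l'-1, by omega⟩
        have d1 := b0 c2 h2
        have f2 := c3.last
        obtain ⟨j', hj'1, hj'2⟩ := bprev (j := j+1+(n+1)) (i := c+1+m) (by rw [c1]; omega)
        have hj3 : j' = j+1+n := by omega
        subst hj3
        have l5 := leg' (i := j+1+n) (k := j+1+(n+1)) (by omega)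
        have l6 := leg' (i := j+1+(n+1)+1+n) (k := j+1+(n+1)+1+(n+1)) (by omega)
        unfold Leg at l5 l6
        have q1 : v (j+1+n) = 0 := by omega
        have q2 : v (j+1+(n+1)+1+(n+1)) = 4 := by omega
        refine (ih (2*(n+1)+3) (by omega)).2.2.2.2.2 (n+1) j rfl bj ?_ ?_ ?_
        · rw [show j + (n+1) + 2 = j + 1 + (n+1) + 1 by omega]; exact c3
        · exact (vc (by omega)).trans bi
        · exact (vc (by omega)).trans q2
    · -- N5 : 4 y 1 y 4
      intro l c hM h0 hE h1 h2
      rcases Nat.eq_zero_or_pos l with rfl | hl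
      · have l1 := leg c
        unfold Leg at l1
        simp only [Nat.mul_zero, Nat.add_zero] at *
        omega
      · obtain ⟨m, rfl⟩ : ∃ m, l = m + 1 := ⟨l-1, by omega⟩
        have e1 := hE.last
        have e2 := hE.first (by omega)
        have l1 := leg' (i := c+1+m) (k := c+(m+1)+1) (by omega)
        have l2 := leg' (i := c+(m+1)+2+m) (k := c+2*(m+1)+2) (by omega)
        have l3 := leg' (i := c) (k := c+1) (by omega)
        unfold Leg at l1 l2 l3
        have lastv : v (c+1+m) = 0 := by omega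
        have lastv' : v (c+(m+1)+2+m) = 0 := by omega
        obtain ⟨j, hj⟩ := dec_even (i := c) (by omega)
        obtain ⟨bj, bj'⟩ := b4 hj h0
        obtain ⟨i, hi⟩ := dec_even (i := c+1+m) (by omega)
        obtain ⟨bi, bi'⟩ := b01 hi lastv (by exact (vc (by omega)).trans h1)
        obtain ⟨l', c1, c2, c3, c4, -⟩ := core' (l := m) (k := c+1) (k' := c+1+m+2)
          (e := c+1+m) (e' := c+(m+1)+2+m) bj' bi' (fun i hi => by
            have := hE i (by omega)
            rw [this]; exact vc (by omega))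
          (by omega) (by omega) (by omega) (by omega)
        have hij : i = j + 1 + l' := s_inj (by rw [hi, c1])
        subst hij
        obtain ⟨d1, -⟩ := b04 c2 lastv' (by exact (vc (by omega)).trans h2)
        refine (ih (2*l'+3) (by omega)).1 l' j rfl bj ?_ ?_ ?_
        · rw [show j + l' + 2 = j + 1 + l' + 1 by omega]; exact c3
        · exact (vc (by omega)).trans bi
        · exact (vc (by omega)).trans d1


abbrev t : ℕ → ℕ := S psi

lemma w_start (j : ℕ) : w (t j) = 0 := by
  have h : (psi (v j))[0]? = some 0 := by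
    have h := v_le j
    have h5 : v j = 0 ∨ v j = 1 ∨ v j = 2 ∨ v j = 3 ∨ v j = 4 := by omega
    rcases h5 with h0 | h0 | h0 | h0 | h0 <;> rw [h0] <;> rfl
  have h2 := w_psi j 0 (psi_len _)
  rw [h] at h2
  exact (Option.some.inj h2).symm

lemma blkw (j : ℕ) :
    (v j = 0 ∧ w (t j) = 0 ∧ w (t j + 1) = 2 ∧ w (t j + 2) = 1 ∧ w (t j + 3) = 2 ∧ w (t j + 4) = 0 ∧
      t (j+1) = t j + 4) ∨
    (v j = 1 ∧ w (t j) = 0 ∧ w (t j + 1) = 1 ∧ w (t j + 2) = 2 ∧ w (t j + 3) = 1 ∧ w (t j + 4) = 0 ∧
      t (j+1) = t j + 4) ∨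
    (v j = 2 ∧ w (t j) = 0 ∧ w (t j + 1) = 2 ∧ w (t j + 2) = 0 ∧ t (j+1) = t j + 2) ∨
    (v j = 3 ∧ w (t j) = 0 ∧ w (t j + 1) = 1 ∧ w (t j + 2) = 2 ∧ w (t j + 3) = 0 ∧ t (j+1) = t j + 3) ∨
    (v j = 4 ∧ w (t j) = 0 ∧ w (t j + 1) = 2 ∧ w (t j + 2) = 1 ∧ w (t j + 3) = 0 ∧
      t (j+1) = t j + 3) := by
  have h := v_le j
  have key := w_psi j
  have hs : t (j+1) = t j + (psi (v j)).length := rfl
  have hz := w_start (j+1)
  have hz0 := w_start j
  have h5 : v j = 0 ∨ v j = 1 ∨ v j = 2 ∨ v j = 3 ∨ v j = 4 := by omega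
  rcases h5 with h0 | h0 | h0 | h0 | h0 <;> rw [h0] at key hs
  · have k1 := key 1 (by simp [psi])
    have k2 := key 2 (by simp [psi])
    have k3 := key 3 (by simp [psi])
    simp only [psi, List.length_cons, List.length_nil] at k1 k2 k3 hs
    simp only [Nat.zero_add, Nat.reduceAdd] at hs
    rw [hs] at hz
    left
    exact ⟨h0, hz0, (Option.some.inj k1).symm, (Option.some.inj k2).symm, (Option.some.inj k3).symm, hz, hs⟩
  · have k1 := key 1 (by simp [psi])
    have k2 := key 2 (by simp [psi])
    have k3 := key 3 (by simp [psi])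
    simp only [psi, List.length_cons, List.length_nil] at k1 k2 k3 hs
    simp only [Nat.zero_add, Nat.reduceAdd] at hs
    rw [hs] at hz
    right; left
    exact ⟨h0, hz0, (Option.some.inj k1).symm, (Option.some.inj k2).symm, (Option.some.inj k3).symm, hz, hs⟩
  · have k1 := key 1 (by simp [psi])
    simp only [psi, List.length_cons, List.length_nil] at k1 hs
    simp only [Nat.zero_add, Nat.reduceAdd] at hs
    rw [hs] at hz
    right; right; left
    exact ⟨h0, hz0, (Option.some.inj k1).symm, hz, hs⟩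
  · have k1 := key 1 (by simp [psi])
    have k2 := key 2 (by simp [psi])
    simp only [psi, List.length_cons, List.length_nil] at k1 k2 hs
    simp only [Nat.zero_add, Nat.reduceAdd] at hs
    rw [hs] at hz
    right; right; right; left
    exact ⟨h0, hz0, (Option.some.inj k1).symm, (Option.some.inj k2).symm, hz, hs⟩
  · have k1 := key 1 (by simp [psi])
    have k2 := key 2 (by simp [psi])
    simp only [psi, List.length_cons, List.length_nil] at k1 k2 hs
    simp only [Nat.zero_add, Nat.reduceAdd] at hs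
    rw [hs] at hz
    right; right; right; right
    exact ⟨h0, hz0, (Option.some.inj k1).symm, (Option.some.inj k2).symm, hz, hs⟩

lemma wc {a b : ℕ} (h : a = b) : w a = w b := by rw [h]

/-- the blocks seen from their end -/
lemma blkw_end (j : ℕ) :
    (v j = 0 ∧ w (t (j+1) - 1) = 2 ∧ w (t (j+1) - 2) = 1 ∧ w (t (j+1) - 3) = 2) ∨
    (v j = 1 ∧ w (t (j+1) - 1) = 1 ∧ w (t (j+1) - 2) = 2 ∧ w (t (j+1) - 3) = 1) ∨
    (v j = 2 ∧ w (t (j+1) - 1) = 2 ∧ w (t (j+1) - 2) = 0) ∨
    (v j = 3 ∧ w (t (j+1) - 1) = 2 ∧ w (t (j+1) - 2) = 1 ∧ w (t (j+1) - 3) = 0) ∨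
    (v j = 4 ∧ w (t (j+1) - 1) = 1 ∧ w (t (j+1) - 2) = 2 ∧ w (t (j+1) - 3) = 0) := by
  rcases blkw j with b | b | b | b | b
  · obtain ⟨b0, b1, b2, b3, b4, b5, b6⟩ := b
    left
    rw [b6]
    exact ⟨b0, (wc (by omega)).trans b4, (wc (by omega)).trans b3, (wc (by omega)).trans b2⟩
  · obtain ⟨b0, b1, b2, b3, b4, b5, b6⟩ := b
    right; left
    rw [b6]
    exact ⟨b0, (wc (by omega)).trans b4, (wc (by omega)).trans b3, (wc (by omega)).trans b2⟩
  · obtain ⟨b0, b1, b2, b3, b6⟩ := b
    right; right; left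
    rw [b6]
    exact ⟨b0, (wc (by omega)).trans b2, (wc (by omega)).trans b1⟩
  · obtain ⟨b0, b1, b2, b3, b5, b6⟩ := b
    right; right; right; left
    rw [b6]
    exact ⟨b0, (wc (by omega)).trans b3, (wc (by omega)).trans b2, (wc (by omega)).trans b1⟩
  · obtain ⟨b0, b1, b2, b3, b5, b6⟩ := b
    right; right; right; right
    rw [b6]
    exact ⟨b0, (wc (by omega)).trans b3, (wc (by omega)).trans b2, (wc (by omega)).trans b1⟩

lemma t_zero : t 0 = 0 := rfl

lemma t_succ (j : ℕ) : t j + 2 ≤ t (j+1) ∧ t (j+1) ≤ t j + 4 := by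
  have := blkw j; omega

lemma t_strict : StrictMono t := strictMono_nat_of_lt_succ (fun j => by have := t_succ j; omega)

lemma t_inj {a b : ℕ} (h : t a = t b) : a = b := t_strict.injective h

lemma ex_blkw (i : ℕ) : ∃ j, t j ≤ i ∧ i < t (j+1) := by
  induction i with
  | zero => exact ⟨0, le_refl _, by have := t_succ 0; omega⟩
  | succ i ih =>
    obtain ⟨j, hj, h⟩ := ih
    by_cases h2 : i + 1 < t (j+1)
    · exact ⟨j, by omega, h2⟩
    · have := t_succ (j+1)
      exact ⟨j+1, by omega, by omega⟩

lemma w_inside {i j : ℕ} (h1 : t j < i) (h2 : i < t (j+1)) : w i = 1 ∨ w i = 2 := by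
  have b := blkw j
  have h3 : i = t j + 1 ∨ i = t j + 2 ∨ i = t j + 3 := by omega
  rcases h3 with rfl | rfl | rfl <;> omega

lemma wz {i : ℕ} (h : w i = 0) : ∃ j, t j = i := by
  obtain ⟨j, h1, h2⟩ := ex_blkw i
  rcases Nat.eq_or_lt_of_le h1 with h3 | h3
  · exact ⟨j, h3⟩
  · have := w_inside h3 h2
    omega

lemma t_lt_iff {a b : ℕ} : t a < t b ↔ a < b := t_strict.lt_iff_lt

lemma t_le_iff {a b : ℕ} : t a ≤ t b ↔ a ≤ b := t_strict.le_iff_le

lemma core3 (l : ℕ) : ∀ j j', (∀ i < l, w (t j + i) = w (t j' + i)) → w (t j + l) = 0 →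
    w (t j' + l) = 0 → ∃ l', t (j+l') = t j + l ∧ t (j'+l') = t j' + l ∧ E j j' l' := by
  induction l using Nat.strong_induction_on with
  | _ l ih =>
    intro j j' hE h1 h2
    rcases Nat.eq_zero_or_pos l with rfl | hl
    · exact ⟨0, rfl, rfl, fun i hi => by omega⟩
    · obtain ⟨a, ha⟩ := wz h1
      obtain ⟨a', ha'⟩ := wz h2
      have ha1 : t (j+1) ≤ t j + l := by
        rw [← ha, t_le_iff]
        have : t j < t a := by omega
        rw [t_lt_iff] at this; omega
      have ha1' : t (j'+1) ≤ t j' + l := by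
        rw [← ha', t_le_iff]
        have : t j' < t a' := by omega
        rw [t_lt_iff] at this; omega
      have g1 := hE 1
      have g2 := hE 2
      have g3 := hE 3
      have b1 := blkw j
      have b2 := blkw j'
      have key : v j = v j' ∧ t (j+1) - t j = t (j'+1) - t j' := by
        rcases b1 with b1 | b1 | b1 | b1 | b1 <;> rcases b2 with b2 | b2 | b2 | b2 | b2 <;> omega
      obtain ⟨kv, kt⟩ := key
      have s1 := t_succ j
      have s2 := t_succ j'
      obtain ⟨d, hd⟩ : ∃ d, t (j+1) = t j + d := ⟨t (j+1) - t j, by omega⟩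
      have hd' : t (j'+1) = t j' + d := by omega
      have h3 := ih (l-d) (by omega) (j+1) (j'+1) (fun i hi => by
        have := hE (d+i) (by omega)
        rw [hd, hd', Nat.add_assoc, Nat.add_assoc]; exact this)
        ((wc (by omega)).trans h1) ((wc (by omega)).trans h2)
      obtain ⟨l', e1, e2, e3⟩ := h3
      refine ⟨l'+1, ?_, ?_, ?_⟩
      · rw [show j + (l'+1) = j + 1 + l' by ring, e1]; omega
      · rw [show j' + (l'+1) = j' + 1 + l' by ring, e2]; omega
      · intro i hi
        rcases Nat.eq_zero_or_pos i with rfl | hi0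
        · simpa using kv
        · have := e3 (i-1) (by omega)
          rw [show j + 1 + (i-1) = j + i by omega, show j' + 1 + (i-1) = j' + i by omega] at this
          exact this

lemma P0 {α β A1 A2 A3 B1 B2 B3 T : ℕ}
    (hα : (α=0∧A1=2∧A2=1∧A3=2∧T=4) ∨ (α=1∧A1=1∧A2=2∧A3=1∧T=4) ∨ (α=2∧A1=2∧T=2) ∨
      (α=3∧A1=1∧A2=2∧T=3) ∨ (α=4∧A1=2∧A2=1∧T=3))
    (hβ : (β=0∧B1=2∧B2=1∧B3=2) ∨ (β=1∧B1=1∧B2=2∧B3=1) ∨ (β=2∧B1=2∧B2=0) ∨
      (β=3∧B1=1∧B2=2∧B3=0) ∨ (β=4∧B1=2∧B2=1∧B3=0))
    (F1 : 1 < T → A1 = B1) (F2 : 2 < T → A2 = B2) (F3 : 3 < T → A3 = B3) (hne : β ≠ α) :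
    (α=2∧(β=0∨β=4)) ∨ (α=3∧β=1) ∨ (α=4∧β=0) := by
  rcases hα with h | h | h | h | h <;> rcases hβ with g | g | g | g | g <;> omega

lemma P1 {α β γ A1 A2 A3 B1 B2 B3 D1 D2 D3 C1 C2 C3 T A : ℕ}
    (hα : (α=0∧A1=2∧A2=1∧A3=2∧D1=2∧D2=1∧D3=2∧T+A=4) ∨ (α=1∧A1=1∧A2=2∧A3=1∧D1=1∧D2=2∧D3=1∧T+A=4) ∨
      (α=2∧A1=2∧D1=2∧D2=0∧T+A=2) ∨ (α=3∧A1=1∧A2=2∧D1=2∧D2=1∧D3=0∧T+A=3) ∨
      (α=4∧A1=2∧A2=1∧D1=1∧D2=2∧D3=0∧T+A=3))
    (hβ : (β=0∧B1=2∧B2=1∧B3=2) ∨ (β=1∧B1=1∧B2=2∧B3=1) ∨ (β=2∧B1=2∧B2=0) ∨
      (β=3∧B1=1∧B2=2∧B3=0) ∨ (β=4∧B1=2∧B2=1∧B3=0))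
    (hγ : (γ=0∧C1=2∧C2=1∧C3=2) ∨ (γ=1∧C1=1∧C2=2∧C3=1) ∨ (γ=2∧C1=2∧C2=0) ∨
      (γ=3∧C1=2∧C2=1∧C3=0) ∨ (γ=4∧C1=1∧C2=2∧C3=0))
    (F1 : 1 < T → A1 = B1) (F2 : 2 < T → A2 = B2) (F3 : 3 < T → A3 = B3)
    (G1 : 1 ≤ A → C1 = D1) (G2 : 2 ≤ A → C2 = D2) (G3 : 3 ≤ A → C3 = D3)
    (hT : 1 ≤ T) (hA : 1 ≤ A)
    (hne : β ≠ α) (hne' : γ ≠ α) :
    (α = 0 ∧ γ = 3 ∧ (β = 2 ∨ β = 4)) ∨ (α = 0 ∧ γ = 2 ∧ β = 4) ∨ (α = 1 ∧ β = 3) ∨
          (α = 2 ∧ (γ = 0 ∨ γ = 3)) ∨ (α = 3 ∧ γ = 0) ∨ (α = 3 ∧ β = 1) ∨ (α = 4 ∧ γ = 1) := by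
  rcases hα with h | h | h | h | h <;> rcases hγ with k | k | k | k | k <;>
    first
    | (exfalso; omega)
    | (rcases hβ with g | g | g | g | g <;> omega)

lemma fin0 {j l' : ℕ} (c3 : E j (j+l'+1) l')
    (P : (v (j+l') = 2 ∧ (v (j+l'+1+l') = 0 ∨ v (j+l'+1+l') = 4)) ∨
          (v (j+l') = 3 ∧ v (j+l'+1+l') = 1) ∨ (v (j+l') = 4 ∧ v (j+l'+1+l') = 0)) : False := by
  rcases P with ⟨p1, p2⟩ | ⟨p1, p2⟩ | ⟨p1, p2⟩
  · have L1 : Leg (v (j+l')) (v (j+l'+1)) := leg _
    unfold Leg at L1
    rcases Nat.eq_zero_or_pos l' with hl0 | hl0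
    · subst hl0
      have e : v (j+0+1+0) = v (j+0+1) := rfl
      omega
    · obtain ⟨m, rfl⟩ : ∃ m, l' = m + 1 := ⟨l'-1, by omega⟩
      have a1 := c3.first hl0
      have a2 := c3.last
      have a3 := leg' (i := j+m) (k := j+(m+1)) (by omega)
      have a4 := leg' (i := j+(m+1)+1+m) (k := j+(m+1)+1+(m+1)) (by omega)
      unfold Leg at a3 a4
      have a5 : v (j+m) = 1 := by omega
      rcases (show v j = 1 ∨ v j = 3 by omega) with d2 | d2
      · exact no121 (i := j+m) a5 ((vc (by omega)).trans p1) (by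
          rw [← d2, a1]; exact vc (by omega))
      · have hj0 : 1 ≤ j := by
          by_contra hh
          have : j = 0 := by omega
          subst this
          have := v_zero
          omega
        have l6 := leg' (i := j-1) (k := j) (by omega)
        unfold Leg at l6
        have q3 : v (j-1) = 2 := by omega
        refine noSq (k := j-1) (r := m+1+1) (by omega) (fun i hi => ?_)
        rcases Nat.eq_zero_or_pos i with rfl | hi0
        · rw [Nat.add_zero, Nat.add_zero, q3, ← p1]; exact vc (by omega)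
        · have := c3 (i-1) (by omega)
          rw [vc (show j - 1 + i = j + (i-1) by omega), this]; exact vc (by omega)
  · exact (noQ l' j).1 c3 p1 ((vc (by omega)).trans p2)
  · exact no40 c3 p1 ((vc (by omega)).trans p2)

lemma fin1 {c l' : ℕ} (c3 : E (c+1) (c+1+l'+1) l')
    (hne : v (c+1+l'+1+l') ≠ v (c+1+l'))
    (P : (v (c+1+l') = 0 ∧ v c = 3 ∧ (v (c+1+l'+1+l') = 2 ∨ v (c+1+l'+1+l') = 4)) ∨
          (v (c+1+l') = 0 ∧ v c = 2 ∧ v (c+1+l'+1+l') = 4) ∨
          (v (c+1+l') = 1 ∧ v (c+1+l'+1+l') = 3) ∨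
          (v (c+1+l') = 2 ∧ (v c = 0 ∨ v c = 3)) ∨
          (v (c+1+l') = 3 ∧ v c = 0) ∨ (v (c+1+l') = 3 ∧ v (c+1+l'+1+l') = 1) ∨
          (v (c+1+l') = 4 ∧ v c = 1)) : False := by
  have l0 := leg c
  have L1 : Leg (v (c+1+l')) (v (c+1+l'+1)) := leg _
  unfold Leg at l0 L1
  rcases Nat.eq_zero_or_pos l' with hl0 | hl0
  · subst hl0
    have e1 : v (c+1+0) = v (c+1) := rfl
    have e2 : v (c+1+0+1+0) = v (c+1+0+1) := rfl
    have e3 : v (c+1+0+1) = v (c+2) := rfl
    have h304 : v c = 3 → v (c+1) = 0 → v (c+2) = 4 → False := fun a b d => no304 a b d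
    by_cases hx : v c = 3 ∧ v (c+1) = 0 ∧ v (c+2) = 4
    · exact h304 hx.1 hx.2.1 hx.2.2
    · rcases P with P | P | P | P | P | P | P <;> omega
  · obtain ⟨m, rfl⟩ : ∃ m, l' = m + 1 := ⟨l'-1, by omega⟩
    have a1 := c3.first hl0
    have a2 := c3.last
    have a3 := leg' (i := c+1+m) (k := c+1+(m+1)) (by omega)
    have a4 := leg' (i := c+1+(m+1)+1+m) (k := c+1+(m+1)+1+(m+1)) (by omega)
    unfold Leg at a3 a4
    have c3' : E (c+1) (c+(m+1)+2) (m+1) := by
      rw [show c + (m+1) + 2 = c + 1 + (m+1) + 1 by omega]; exact c3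
    rcases P with ⟨p1, p2, p3 | p3⟩ | ⟨p1, p2, p3⟩ | ⟨p1, p2⟩ | ⟨p1, p2⟩ | ⟨p1, p2⟩ | ⟨p1, p2⟩ | ⟨p1, p2⟩
    · exact (chain (2*(m+1)+3)).2.1 (m+1) c rfl p2 c3' ((vc (by omega)).trans p1) ((vc (by omega)).trans p3)
    · exact noPA p2 c3' ((vc (by omega)).trans p1) ((vc (by omega)).trans p3)
    · exact (chain (2*(m+1)+3)).1 (m+1) c rfl p2 c3' ((vc (by omega)).trans p1) ((vc (by omega)).trans p3)
    · exact (noQ (m+1) (c+1)).2 c3 p1 ((vc (by omega)).trans p2)
    · -- letter 2 in the middle
      have a5 : v (c+1+m) = 1 := by omega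
      have a6 : v (c+1) = 1 := by omega
      exact no121 (i := c+1+m) a5 ((vc (by omega)).trans p1) (by
          rw [← a6, a1]; exact vc (by omega))
    · have a7 : v (c+1+(m+1)+1+(m+1)) = 1 := by omega
      exact (noQ (m+1) (c+1)).1 c3 p1 ((vc (by omega)).trans a7)
    · exact (noQ (m+1) (c+1)).1 c3 p1 ((vc (by omega)).trans p2)
    · rcases (show v (c+1+(m+1)+1+(m+1)) = 0 ∨ v (c+1+(m+1)+1+(m+1)) = 1 by omega) with a7 | a7
      · exact no40 c3 p1 ((vc (by omega)).trans a7)
      · exact (chain (2*(m+1)+2)).2.2.1 (m+1) (c+1) rfl c3 p1 ((vc (by omega)).trans a7)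

/-- the case of a square of `w` with a block start in it, after decoding -/
lemma w_sq_core {k r j l' : ℕ} (h : ∀ i < r, w (k+i) = w (k+r+i)) (hj : k ≤ t j)
    (hmin : ∀ m < j, ¬ k ≤ t m) (hb : t (j+l') < k + r) (hq : t (j+l'+1) = t j + r)
    (c2 : t (j+l'+1+l') = t (j+l') + r) (c3 : E j (j+l'+1) l') : False := by
  have hsq : v (j+l'+1+l') ≠ v (j+l') := by
    intro heq
    refine noSq (k := j) (r := l'+1) (by omega) (fun i hi => ?_)
    rcases Nat.lt_or_ge i l' with hil | hil
    · have := c3 i hil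
      rw [this]; exact vc (by omega)
    · have : i = l' := by omega
      subst this
      rw [← heq]; exact vc (by omega)
  have hqt : t j ≤ t (j+l') := t_le_iff.mpr (by omega)
  have hqs := t_succ (j+l')
  have F1 : 1 < k + r - t (j+l') → w (t (j+l') + 1) = w (t (j+l'+1+l') + 1) := fun hh => by
    have := h (t (j+l') + 1 - k) (by omega)
    rw [wc (show t (j+l') + 1 = k + (t (j+l') + 1 - k) by omega), this]
    exact wc (by omega)
  have F2 : 2 < k + r - t (j+l') → w (t (j+l') + 2) = w (t (j+l'+1+l') + 2) := fun hh => by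
    have := h (t (j+l') + 2 - k) (by omega)
    rw [wc (show t (j+l') + 2 = k + (t (j+l') + 2 - k) by omega), this]
    exact wc (by omega)
  have F3 : 3 < k + r - t (j+l') → w (t (j+l') + 3) = w (t (j+l'+1+l') + 3) := fun hh => by
    have := h (t (j+l') + 3 - k) (by omega)
    rw [wc (show t (j+l') + 3 = k + (t (j+l') + 3 - k) by omega), this]
    exact wc (by omega)
  have G1 : 1 ≤ t j - k → w (t j - 1) = w (t (j+l'+1) - 1) := fun hh => by
    have := h (t j - 1 - k) (by omega)
    rw [wc (show t j - 1 = k + (t j - 1 - k) by omega), this]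
    exact wc (by omega)
  have G2 : 2 ≤ t j - k → w (t j - 2) = w (t (j+l'+1) - 2) := fun hh => by
    have := h (t j - 2 - k) (by omega)
    rw [wc (show t j - 2 = k + (t j - 2 - k) by omega), this]
    exact wc (by omega)
  have G3 : 3 ≤ t j - k → w (t j - 3) = w (t (j+l'+1) - 3) := fun hh => by
    have := h (t j - 3 - k) (by omega)
    rw [wc (show t j - 3 = k + (t j - 3 - k) by omega), this]
    exact wc (by omega)
  have HT : t (j+l'+1) = t (j+l') + ((k + r - t (j+l')) + (t j - k)) := by omega
  have HT1 : 1 ≤ k + r - t (j+l') := by omega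
  have hAk : t j = k + (t j - k) := by omega
  clear h c2 hq hqt hqs hj
  generalize k + r - t (j+l') = T at *
  generalize hA : t j - k = A at *
  have B1 := blkw (j+l')
  have B1' := blkw_end (j+l')
  have B2 := blkw (j+l'+1+l')
  have Hβ : (v (j+l'+1+l')=0∧w (t (j+l'+1+l')+1)=2∧w (t (j+l'+1+l')+2)=1∧w (t (j+l'+1+l')+3)=2) ∨
      (v (j+l'+1+l')=1∧w (t (j+l'+1+l')+1)=1∧w (t (j+l'+1+l')+2)=2∧w (t (j+l'+1+l')+3)=1) ∨
      (v (j+l'+1+l')=2∧w (t (j+l'+1+l')+1)=2∧w (t (j+l'+1+l')+2)=0) ∨
      (v (j+l'+1+l')=3∧w (t (j+l'+1+l')+1)=1∧w (t (j+l'+1+l')+2)=2∧w (t (j+l'+1+l')+3)=0) ∨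
      (v (j+l'+1+l')=4∧w (t (j+l'+1+l')+1)=2∧w (t (j+l'+1+l')+2)=1∧w (t (j+l'+1+l')+3)=0) := by
    clear B1 B1' F1 F2 F3 G1 G2 G3 hsq HT HT1 hAk hA hb
    rcases B2 with h | h | h | h | h <;> omega
  clear B2
  rcases Nat.eq_zero_or_pos A with hA0 | hA0
  · subst hA0
    refine fin0 c3 (P0 (T := T) ?_ Hβ F1 F2 F3 hsq)
    clear F1 F2 F3 G1 G2 G3 hsq HT1 hAk hA hb Hβ B1'
    rcases B1 with h | h | h | h | h <;> omega
  · have hj1 : 1 ≤ j := by
      by_contra hh
      have : j = 0 := by omega
      subst this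
      have := t_zero
      omega
    obtain ⟨c, rfl⟩ : ∃ c, j = c + 1 := ⟨j-1, by omega⟩
    have hcc : v c ≠ v (c+1+l') := by
      intro heq
      refine noSq (k := c) (r := l'+1) (by omega) (fun i hi => ?_)
      rcases Nat.eq_zero_or_pos i with rfl | hi0
      · rw [Nat.add_zero, Nat.add_zero, heq]; exact vc (by omega)
      · have := c3 (i-1) (by omega)
        rw [vc (show c + i = c + 1 + (i-1) by omega), this]; exact vc (by omega)
    have B3 := blkw_end c
    refine fin1 c3 hsq (P1 (T := T) (A := A) ?_ Hβ B3 F1 F2 F3 G1 G2 G3 HT1 hA0 hsq hcc)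
    clear F1 F2 F3 G1 G2 G3 hsq HT1 hAk hA hb Hβ hcc B3
    rcases B1 with h | h | h | h | h <;> rcases B1' with g | g | g | g | g <;> omega

/-- `w` is squarefree -/
theorem w_sqfree {k r : ℕ} (hr : 1 ≤ r) (h : ∀ i < r, w (k+i) = w (k+r+i)) : False := by
  -- existence of a zero in the first half
  by_cases hz : ∃ i < r, w (k+i) = 0
  · obtain ⟨i0, hi0, hi0'⟩ := hz
    obtain ⟨j0, hj0⟩ := wz hi0'
    -- least block start at or after k
    have hex : ∃ j, k ≤ t j := ⟨j0, by omega⟩
    classical
    obtain ⟨j, hj, hmin⟩ : ∃ j, k ≤ t j ∧ ∀ m < j, ¬ k ≤ t m :=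
      ⟨Nat.find hex, Nat.find_spec hex, fun m hm => Nat.find_min hex hm⟩
    have hjj0 : j ≤ j0 := by
      by_contra hcon
      exact hmin j0 (by omega) (by omega)
    have hjr : t j < k + r := by
      have := t_le_iff.mpr hjj0
      omega
    -- second copy
    have hw2 : w (t j + r) = 0 := by
      have := h (t j - k) (by omega)
      have e1 : w (k + (t j - k)) = 0 := (wc (by omega)).trans (w_start j)
      rw [e1] at this
      rw [this]; exact wc (by omega)
    obtain ⟨j', hj'⟩ := wz hw2
    have hjlt : j < j' := by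
      rw [← t_lt_iff]; omega
    obtain ⟨q, rfl⟩ : ∃ q, j' = q + 1 := ⟨j'-1, by omega⟩
    have hqj : j ≤ q := by omega
    have hqt : t j ≤ t q := t_le_iff.mpr hqj
    have hqs := t_succ q
    have hbq : t q < k + r := by
      by_contra hcon
      have e1 := h (t q - r - k) (by omega)
      have e2 : w (k + r + (t q - r - k)) = 0 := (wc (by omega)).trans (w_start q)
      rw [e2] at e1
      obtain ⟨m, hm⟩ := wz e1
      exact hmin m (by rw [← t_lt_iff]; omega) (by omega)
    have hwq : w (t q + r) = 0 := by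
      have := h (t q - k) (by omega)
      have e1 : w (k + (t q - k)) = 0 := (wc (by omega)).trans (w_start q)
      rw [e1] at this
      rw [this]; exact wc (by omega)
    obtain ⟨l', c1, c2, c3⟩ := core3 (t q - t j) j (q+1) (fun i hi => by
        have := h (t j + i - k) (by omega)
        rw [wc (show t j + i = k + (t j + i - k) by omega), this]
        exact wc (by omega))
      ((wc (by omega)).trans (w_start q)) ((wc (by omega)).trans hwq)
    have hq : q = j + l' := t_inj (by omega)
    subst hq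
    exact w_sq_core h hj hmin hbq hj' (by omega) c3
  · -- no zero
    push Not at hz
    obtain ⟨j, h1, h2⟩ := ex_blkw k
    have hk0 := hz 0 hr
    have hlt : t j < k := by
      rcases Nat.eq_or_lt_of_le h1 with h3 | h3
      · exfalso
        apply hk0
        rw [Nat.add_zero, ← h3]; exact w_start j
      · exact h3
    have hnext : k + 2*r ≤ t (j+1) := by
      by_contra hcon
      have hz1 := w_start (j+1)
      rcases Nat.lt_or_ge (t (j+1)) (k+r) with h5 | h5
      · exact hz (t (j+1) - k) (by omega) ((wc (by omega)).trans hz1)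
      · have := h (t (j+1) - k - r) (by omega)
        refine hz (t (j+1) - k - r) (by omega) ?_
        rw [this]; exact (wc (by omega)).trans hz1
    have h3 := t_succ j
    have hr1 : r = 1 := by omega
    subst hr1
    have h4 := h 0 (by omega)
    have b := blkw j
    have h5 : k = t j + 1 ∨ k = t j + 2 := by omega
    simp only [Nat.add_zero] at h4
    rcases h5 with rfl | rfl
    · have e : t j + 1 + 1 = t j + 2 := rfl
      rw [e] at h4
      omega
    · have e : t j + 2 + 1 = t j + 3 := rfl
      rw [e] at h4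
      omega

/-- `w` avoids `010` -/
theorem w_no010 {i : ℕ} (h0 : w i = 0) (h1 : w (i+1) = 1) (h2 : w (i+2) = 0) : False := by
  obtain ⟨j, rfl⟩ := wz h0
  have b := blkw j
  omega

/-- `w` avoids `101` -/
theorem w_no101 {i : ℕ} (h0 : w i = 1) (h1 : w (i+1) = 0) (h2 : w (i+2) = 1) : False := by
  obtain ⟨j, hj⟩ := wz h1
  have hj1 : 1 ≤ j := by
    by_contra hh
    have : j = 0 := by omega
    subst this
    have := t_zero
    omega
  obtain ⟨c, rfl⟩ : ∃ c, j = c + 1 := ⟨j-1, by omega⟩
  have b := blkw_end c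
  have b2 := blkw (c+1)
  have l := leg c
  unfold Leg at l
  rw [hj] at b b2
  have e1 : w (i + 1 - 1) = w i := wc (by omega)
  have e2 : w (i + 1 + 1) = w (i+2) := rfl
  omega

lemma w_le (i : ℕ) : w i ≤ 2 := by
  obtain ⟨j, h1, h2⟩ := ex_blkw i
  rcases Nat.eq_or_lt_of_le h1 with h3 | h3
  · rw [← h3, w_start]; omega
  · have := w_inside h3 h2
    omega

end Pool.Agent.H.MP_fa571f_co
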